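import Pool.Agent.H459R3.NS.Defs

/-!
Smooth periodic solutions of the Navier-Stokes (`ν > 0`) or Euler (`ν = 0`) equations with an
additional bilinear term.
-/

open MeasureTheory Set
open scoped ContDiff

namespace Pool.Agent.N977.K

open H459R3.NS

/-- `(u, p)` is a smooth `1`-periodic solution of
`∂ₜ u + (u·∇) u + ∇ p = ν Δ u + K(u, u)`, `div u = 0`, on the time interval `[0, T)`:
`u` and `p` are `C^∞` on `[0, T) × ℝ³` and `1`-periodic in each coordinate of `x`. -/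
structure SolK (ν T : ℝ) (K : (V → V) → (V → V) → V → V) (u : ℝ → V → V) (p : ℝ → V → ℝ) :
    Prop where
  smooth_u : ContDiffOn ℝ ∞ (fun z : ℝ × V => u z.1 z.2) (Ico 0 T ×ˢ univ)
  smooth_p : ContDiffOn ℝ ∞ (fun z : ℝ × V => p z.1 z.2) (Ico 0 T ×ˢ univ)
  per_u : ∀ t ∈ Ico 0 T, Per (u t)
  per_p : ∀ t ∈ Ico 0 T, Per (p t)
  divfree : ∀ t ∈ Ico 0 T, ∀ x, ∑ i, pd i (fun y => u t y i) x = 0
  momentum : ∀ t ∈ Ioo 0 T, ∀ x i,
    deriv (fun s => u s x i) t + ∑ j, u t x j * pd j (fun y => u t y i) x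
      = ν * ∑ j, pd j (pd j (fun y => u t y i)) x - pd i (p t) x + K (u t) (u t) x i

end Pool.Agent.N977.K
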