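import Pool.Agent.H459R3.NS.High2

/-!
The modes `√2 cos (2 π m x₁)`, `√2 sin (2 π m x₁)`.
-/

open MeasureTheory Set Filter Topology
open scoped ContDiff

namespace Pool.Agent.N977.K

open H459R3.NS

/-- the mode `√2 cos (2 π m x₁)` -/
noncomputable def cm (m : ℕ) (x : V) : ℝ := √2 * Real.cos (2 * Real.pi * m * x 0)

/-- the mode `√2 sin (2 π m x₁)` -/
noncomputable def sm (m : ℕ) (x : V) : ℝ := √2 * Real.sin (2 * Real.pi * m * x 0)

/-- the coefficient of `cm m` -/
noncomputable def CC (m : ℕ) (f : V → ℝ) : ℝ := ∫ x in cube, f x * cm m x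

/-- the coefficient of `sm m` -/
noncomputable def SS (m : ℕ) (f : V → ℝ) : ℝ := ∫ x in cube, f x * sm m x

/-- the frequency `(m, 0, 0)` -/
def ke (m : ℕ) : K3 := Pi.single 0 (m : ℤ)

theorem sqrt2_sq : √2 * √2 = (2 : ℝ) := Real.mul_self_sqrt (by norm_num)

theorem sqrt2_le : √2 ≤ (2 : ℝ) := by
  rw [Real.sqrt_le_left (by norm_num)]; norm_num

theorem cm_smooth (m : ℕ) : ContDiff ℝ ∞ (cm m) := by
  unfold cm
  exact contDiff_const.mul (Real.contDiff_cos.comp (contDiff_const.mul (contDiff_apply ℝ ℝ 0)))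

theorem sm_smooth (m : ℕ) : ContDiff ℝ ∞ (sm m) := by
  unfold sm
  exact contDiff_const.mul (Real.contDiff_sin.comp (contDiff_const.mul (contDiff_apply ℝ ℝ 0)))

theorem cm_per (m : ℕ) : Per (cm m) := by
  intro i x
  unfold cm
  congr 1
  by_cases h : i = 0
  · subst h
    simp only [Pi.add_apply, Pi.single_eq_same]
    rw [show 2 * Real.pi * m * (x 0 + 1) = 2 * Real.pi * m * x 0 + m * (2 * Real.pi) by ring]
    exact Real.cos_add_nat_mul_two_pi _ _
  · simp [Pi.single_eq_of_ne (Ne.symm h)]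

theorem sm_per (m : ℕ) : Per (sm m) := by
  intro i x
  unfold sm
  congr 1
  by_cases h : i = 0
  · subst h
    simp only [Pi.add_apply, Pi.single_eq_same]
    rw [show 2 * Real.pi * m * (x 0 + 1) = 2 * Real.pi * m * x 0 + m * (2 * Real.pi) by ring]
    exact Real.sin_add_nat_mul_two_pi _ _
  · simp [Pi.single_eq_of_ne (Ne.symm h)]

theorem cm_sp (m : ℕ) : SP (cm m) := ⟨cm_smooth m, cm_per m⟩

theorem sm_sp (m : ℕ) : SP (sm m) := ⟨sm_smooth m, sm_per m⟩

theorem cm_cont (m : ℕ) : Continuous (cm m) := (cm_smooth m).continuous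

theorem sm_cont (m : ℕ) : Continuous (sm m) := (sm_smooth m).continuous

theorem abs_cm_le (m : ℕ) (x : V) : |cm m x| ≤ 2 := by
  unfold cm
  rw [abs_mul, abs_of_nonneg (Real.sqrt_nonneg 2)]
  calc √2 * |Real.cos (2 * Real.pi * m * x 0)| ≤ √2 * 1 :=
        mul_le_mul_of_nonneg_left (Real.abs_cos_le_one _) (Real.sqrt_nonneg _)
    _ ≤ 2 := by rw [mul_one]; exact sqrt2_le

theorem abs_sm_le (m : ℕ) (x : V) : |sm m x| ≤ 2 := by
  unfold sm
  rw [abs_mul, abs_of_nonneg (Real.sqrt_nonneg 2)]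
  calc √2 * |Real.sin (2 * Real.pi * m * x 0)| ≤ √2 * 1 :=
        mul_le_mul_of_nonneg_left (Real.abs_sin_le_one _) (Real.sqrt_nonneg _)
    _ ≤ 2 := by rw [mul_one]; exact sqrt2_le

theorem hasFDerivAt_arg (m : ℕ) (x : V) : HasFDerivAt (fun y : V => 2 * Real.pi * m * y 0)
    ((2 * Real.pi * m) • (ContinuousLinearMap.proj 0 : V →L[ℝ] ℝ)) x :=
  ((ContinuousLinearMap.proj (R := ℝ) (φ := fun _ : Fin 3 => ℝ) 0).hasFDerivAt
    (x := x)).const_mul (2 * Real.pi * m)

theorem pd_cm (m : ℕ) (j : Fin 3) (x : V) :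
    pd j (cm m) x = if j = 0 then -(2 * Real.pi * m) * sm m x else 0 := by
  have h := ((hasFDerivAt_arg m x).cos).const_mul (√2)
  have h' : HasFDerivAt (cm m) _ x := h
  unfold pd
  rw [h'.fderiv]
  by_cases hj : j = 0
  · subst hj
    simp only [smul_apply, ContinuousLinearMap.proj_apply, Pi.single_eq_same, smul_eq_mul,
      if_true, sm]
    ring
  · rw [if_neg hj]
    simp [Ne.symm hj]

theorem pd_sm (m : ℕ) (j : Fin 3) (x : V) :
    pd j (sm m) x = if j = 0 then (2 * Real.pi * m) * cm m x else 0 := by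
  have h := ((hasFDerivAt_arg m x).sin).const_mul (√2)
  have h' : HasFDerivAt (sm m) _ x := h
  unfold pd
  rw [h'.fderiv]
  by_cases hj : j = 0
  · subst hj
    simp only [smul_apply, ContinuousLinearMap.proj_apply, Pi.single_eq_same, smul_eq_mul,
      if_true, cm]
    ring
  · rw [if_neg hj]
    simp [Ne.symm hj]

theorem pd_zero_fun (j : Fin 3) (x : V) : pd j (fun _ : V => (0 : ℝ)) x = 0 := by
  unfold pd; simp

theorem pd_const_mul {f : V → ℝ} (hf : SP f) (c : ℝ) (j : Fin 3) (x : V) :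
    pd j (fun y => c * f y) x = c * pd j f x := by
  unfold pd
  have h : HasFDerivAt (fun y => c * f y) _ x := (hf.diff x).hasFDerivAt.const_mul c
  rw [h.fderiv]
  simp

theorem lap_cm (m : ℕ) (x : V) : lap (cm m) x = -((2 * Real.pi * m) ^ 2) * cm m x := by
  unfold lap
  have e : ∀ j, pd j (pd j (cm m)) x = if j = 0 then -((2 * Real.pi * m) ^ 2) * cm m x else 0 := by
    intro j
    have h1 : pd j (cm m) = fun x => if j = 0 then -(2 * Real.pi * m) * sm m x else 0 :=
      funext fun x => pd_cm m j x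
    rw [h1]
    by_cases hj : j = 0
    · subst hj
      simp only [if_true]
      rw [pd_const_mul (sm_sp m), pd_sm]
      simp only [if_true]
      ring
    · simp only [if_neg hj]
      exact pd_zero_fun j x
  rw [Finset.sum_congr rfl fun j _ => e j]
  simp

theorem lap_sm (m : ℕ) (x : V) : lap (sm m) x = -((2 * Real.pi * m) ^ 2) * sm m x := by
  unfold lap
  have e : ∀ j, pd j (pd j (sm m)) x = if j = 0 then -((2 * Real.pi * m) ^ 2) * sm m x else 0 := by
    intro j
    have h1 : pd j (sm m) = fun x => if j = 0 then (2 * Real.pi * m) * cm m x else 0 :=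
      funext fun x => pd_sm m j x
    rw [h1]
    by_cases hj : j = 0
    · subst hj
      simp only [if_true]
      rw [pd_const_mul (cm_sp m), pd_cm]
      simp only [if_true]
      ring
    · simp only [if_neg hj]
      exact pd_zero_fun j x
  rw [Finset.sum_congr rfl fun j _ => e j]
  simp

/-! ### Fourier coefficients -/

theorem ph_single0 (k : ℤ) (x : V) : ph (Pi.single 0 k) x = k * x 0 := by
  unfold ph
  rw [Fin.sum_univ_three]
  simp

theorem ee_single0 (k : ℤ) (x : V) : ee (Pi.single 0 k) x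
    = ((Real.cos (2 * Real.pi * k * x 0) : ℝ) : ℂ) + ((Real.sin (2 * Real.pi * k * x 0) : ℝ) : ℂ)
      * Complex.I := by
  unfold ee
  rw [ph_single0]
  have : 2 * (Real.pi : ℂ) * Complex.I * (((k : ℝ) * x 0 : ℝ) : ℂ)
      = ((2 * Real.pi * k * x 0 : ℝ) : ℂ) * Complex.I := by push_cast; ring
  rw [this, Complex.exp_mul_I, ← Complex.ofReal_cos, ← Complex.ofReal_sin]

theorem ee_single0_re (k : ℤ) (x : V) :
    (ee (Pi.single 0 k) x).re = Real.cos (2 * Real.pi * k * x 0) := by
  rw [ee_single0]; simp [-Complex.ofReal_cos, -Complex.ofReal_sin]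

theorem ee_single0_im (k : ℤ) (x : V) :
    (ee (Pi.single 0 k) x).im = Real.sin (2 * Real.pi * k * x 0) := by
  rw [ee_single0]; simp [-Complex.ofReal_cos, -Complex.ofReal_sin]

theorem re_integral {f : V → ℂ} (hf : Continuous f) :
    (∫ x in cube, f x).re = ∫ x in cube, (f x).re :=
  (Complex.reCLM.integral_comp_comm (integrableOn_cube hf)).symm

theorem im_integral {f : V → ℂ} (hf : Continuous f) :
    (∫ x in cube, f x).im = ∫ x in cube, (f x).im :=
  (Complex.imCLM.integral_comp_comm (integrableOn_cube hf)).symm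

theorem int_cos (k : ℤ) : ∫ x in cube, Real.cos (2 * Real.pi * k * x 0) = if k = 0 then 1 else 0 := by
  have h := congrArg Complex.re (integral_ee (Pi.single 0 k))
  rw [re_integral (ee_continuous _)] at h
  simp only [ee_single0_re] at h
  rw [h]
  by_cases hk : k = 0
  · simp [hk]
  · have : (Pi.single 0 k : K3) ≠ 0 := by simpa using hk
    rw [if_neg this, if_neg hk]; rfl

theorem int_sin (k : ℤ) : ∫ x in cube, Real.sin (2 * Real.pi * k * x 0) = 0 := by
  have h := congrArg Complex.im (integral_ee (Pi.single 0 k))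
  rw [im_integral (ee_continuous _)] at h
  simp only [ee_single0_im] at h
  rw [h]
  split_ifs <;> simp

theorem cosc (k : ℤ) : Continuous fun x : V => Real.cos (2 * Real.pi * k * x 0) :=
  Real.continuous_cos.comp (continuous_const.mul (continuous_apply 0))

theorem sinc (k : ℤ) : Continuous fun x : V => Real.sin (2 * Real.pi * k * x 0) :=
  Real.continuous_sin.comp (continuous_const.mul (continuous_apply 0))

theorem CC_cm {m l : ℕ} (hm : 0 < m) : CC l (cm m) = if l = m then 1 else 0 := by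
  unfold CC
  have e : ∀ x : V, cm m x * cm l x = Real.cos (2 * Real.pi * ((m : ℤ) - l : ℤ) * x 0)
      + Real.cos (2 * Real.pi * ((m : ℤ) + l : ℤ) * x 0) := by
    intro x
    unfold cm
    have h1 : 2 * Real.pi * (((m : ℤ) - l : ℤ) : ℝ) * x 0
        = 2 * Real.pi * m * x 0 - 2 * Real.pi * l * x 0 := by push_cast; ring
    have h2 : 2 * Real.pi * (((m : ℤ) + l : ℤ) : ℝ) * x 0
        = 2 * Real.pi * m * x 0 + 2 * Real.pi * l * x 0 := by push_cast; ring
    rw [h1, h2, Real.cos_sub, Real.cos_add]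
    have := sqrt2_sq
    linear_combination (Real.cos (2 * Real.pi * m * x 0) * Real.cos (2 * Real.pi * l * x 0)) * this
  simp_rw [e]
  rw [integral_add (integrableOn_cube (cosc _)) (integrableOn_cube (cosc _)), int_cos, int_cos]
  by_cases h : l = m
  · subst h
    rw [if_pos (by ring), if_neg (by omega), if_pos rfl, add_zero]
  · rw [if_neg (by omega), if_neg (by omega), if_neg h, add_zero]

theorem SS_sm {m l : ℕ} (hm : 0 < m) : SS l (sm m) = if l = m then 1 else 0 := by
  unfold SS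
  have e : ∀ x : V, sm m x * sm l x = Real.cos (2 * Real.pi * ((m : ℤ) - l : ℤ) * x 0)
      - Real.cos (2 * Real.pi * ((m : ℤ) + l : ℤ) * x 0) := by
    intro x
    unfold sm
    have h1 : 2 * Real.pi * (((m : ℤ) - l : ℤ) : ℝ) * x 0
        = 2 * Real.pi * m * x 0 - 2 * Real.pi * l * x 0 := by push_cast; ring
    have h2 : 2 * Real.pi * (((m : ℤ) + l : ℤ) : ℝ) * x 0
        = 2 * Real.pi * m * x 0 + 2 * Real.pi * l * x 0 := by push_cast; ring
    rw [h1, h2, Real.cos_sub, Real.cos_add]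
    have := sqrt2_sq
    linear_combination (Real.sin (2 * Real.pi * m * x 0) * Real.sin (2 * Real.pi * l * x 0)) * this
  simp_rw [e]
  rw [integral_sub (integrableOn_cube (cosc _)) (integrableOn_cube (cosc _)), int_cos, int_cos]
  by_cases h : l = m
  · subst h
    rw [if_pos (by ring), if_neg (by omega), if_pos rfl, sub_zero]
  · rw [if_neg (by omega), if_neg (by omega), if_neg h, sub_zero]

theorem SS_cm (m l : ℕ) : SS l (cm m) = 0 := by
  unfold SS
  have e : ∀ x : V, cm m x * sm l x = Real.sin (2 * Real.pi * ((l : ℤ) + m : ℤ) * x 0)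
      + Real.sin (2 * Real.pi * ((l : ℤ) - m : ℤ) * x 0) := by
    intro x
    unfold cm sm
    have h1 : 2 * Real.pi * (((l : ℤ) + m : ℤ) : ℝ) * x 0
        = 2 * Real.pi * l * x 0 + 2 * Real.pi * m * x 0 := by push_cast; ring
    have h2 : 2 * Real.pi * (((l : ℤ) - m : ℤ) : ℝ) * x 0
        = 2 * Real.pi * l * x 0 - 2 * Real.pi * m * x 0 := by push_cast; ring
    rw [h1, h2, Real.sin_add, Real.sin_sub]
    have := sqrt2_sq
    linear_combination (Real.cos (2 * Real.pi * m * x 0) * Real.sin (2 * Real.pi * l * x 0)) * this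
  simp_rw [e]
  rw [integral_add (integrableOn_cube (sinc _)) (integrableOn_cube (sinc _)), int_sin, int_sin,
    add_zero]

theorem CC_sm (m l : ℕ) : CC l (sm m) = 0 := by
  have := SS_cm l m
  unfold SS at this
  unfold CC
  rw [← this]
  congr 1
  funext x
  ring

theorem fr_ke {f : V → ℝ} (hf : Continuous f) (m : ℕ) :
    CC m f = √2 * (fr f (ke m)).re ∧ SS m f = -(√2 * (fr f (ke m)).im) := by
  have hk : -ke m = Pi.single 0 (-(m : ℤ)) := by
    unfold ke; rw [Pi.single_neg]
  have hc : Continuous fun x => ee (-ke m) x * (f x : ℂ) :=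
    (ee_continuous _).mul (Complex.continuous_ofReal.comp hf)
  constructor
  · unfold CC fr fc
    rw [re_integral hc, ← integral_const_mul]
    congr 1
    funext x
    rw [Complex.re_mul_ofReal, hk, ee_single0_re]
    unfold cm
    have : 2 * Real.pi * ((-(m : ℤ) : ℤ) : ℝ) * x 0 = -(2 * Real.pi * m * x 0) := by
      push_cast; ring
    rw [this, Real.cos_neg]
    ring
  · unfold SS fr fc
    rw [im_integral hc, ← integral_const_mul, ← integral_neg]
    congr 1
    funext x
    rw [Complex.im_mul_ofReal, hk, ee_single0_im]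
    unfold sm
    have : 2 * Real.pi * ((-(m : ℤ) : ℤ) : ℝ) * x 0 = -(2 * Real.pi * m * x 0) := by
      push_cast; ring
    rw [this, Real.sin_neg]
    ring

theorem abs_CC_le {f : V → ℝ} (hf : Continuous f) (m : ℕ) : |CC m f| ≤ √2 * ‖fr f (ke m)‖ := by
  rw [(fr_ke hf m).1, abs_mul, abs_of_nonneg (Real.sqrt_nonneg 2)]
  exact mul_le_mul_of_nonneg_left (Complex.abs_re_le_norm _) (Real.sqrt_nonneg _)

theorem abs_SS_le {f : V → ℝ} (hf : Continuous f) (m : ℕ) : |SS m f| ≤ √2 * ‖fr f (ke m)‖ := by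
  rw [(fr_ke hf m).2, abs_neg, abs_mul, abs_of_nonneg (Real.sqrt_nonneg 2)]
  exact mul_le_mul_of_nonneg_left (Complex.abs_im_le_norm _) (Real.sqrt_nonneg _)

/-! ### linearity and bounds -/

theorem CC_add {f g : V → ℝ} (hf : Continuous f) (hg : Continuous g) (m : ℕ) :
    CC m (fun x => f x + g x) = CC m f + CC m g := by
  unfold CC
  simp_rw [add_mul]
  exact integral_add (integrableOn_cube (hf.mul (cm_cont m)))
    (integrableOn_cube (hg.mul (cm_cont m)))

theorem SS_add {f g : V → ℝ} (hf : Continuous f) (hg : Continuous g) (m : ℕ) :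
    SS m (fun x => f x + g x) = SS m f + SS m g := by
  unfold SS
  simp_rw [add_mul]
  exact integral_add (integrableOn_cube (hf.mul (sm_cont m)))
    (integrableOn_cube (hg.mul (sm_cont m)))

theorem CC_smul (c : ℝ) (f : V → ℝ) (m : ℕ) : CC m (fun x => c * f x) = c * CC m f := by
  unfold CC
  simp_rw [mul_assoc]
  exact integral_const_mul _ _

theorem SS_smul (c : ℝ) (f : V → ℝ) (m : ℕ) : SS m (fun x => c * f x) = c * SS m f := by
  unfold SS
  simp_rw [mul_assoc]
  exact integral_const_mul _ _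

theorem nrm_cm {m : ℕ} (hm : 0 < m) : nrm (cm m) = 1 := by
  have h := CC_cm (l := m) hm
  unfold CC at h
  unfold nrm
  simp_rw [sq]
  rw [h, if_pos rfl, Real.sqrt_one]

theorem nrm_sm {m : ℕ} (hm : 0 < m) : nrm (sm m) = 1 := by
  have h := SS_sm (l := m) hm
  unfold SS at h
  unfold nrm
  simp_rw [sq]
  rw [h, if_pos rfl, Real.sqrt_one]

theorem abs_CC_nrm {f : V → ℝ} (hf : Continuous f) {m : ℕ} (hm : 0 < m) : |CC m f| ≤ nrm f := by
  have := abs_int_mul_le hf (cm_cont m)
  rwa [nrm_cm hm, mul_one] at this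

theorem abs_SS_nrm {f : V → ℝ} (hf : Continuous f) {m : ℕ} (hm : 0 < m) : |SS m f| ≤ nrm f := by
  have := abs_int_mul_le hf (sm_cont m)
  rwa [nrm_sm hm, mul_one] at this

/-- decay of the Fourier coefficients -/
theorem fr_decay {f : V → ℝ} (hf : SP f) (s : ℕ) {B : ℝ}
    (hB : ∀ x ∈ cube, |(pd 0)^[s] f x| ≤ B) (m : ℕ) : (m : ℝ) ^ s * ‖fr f (ke m)‖ ≤ B := by
  have h1 : ‖fr ((pd 0)^[s] f) (ke m)‖ ≤ B := by
    unfold fr fc
    have h2 := norm_setIntegral_le_of_norm_le_const (μ := volume) (s := cube)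
      (f := fun x => ee (-ke m) x * (((pd 0)^[s] f x : ℝ) : ℂ)) (C := B)
      isCompact_Icc.measure_lt_top (fun x hx => by
        rw [norm_mul, norm_ee, one_mul, Complex.norm_real]
        exact hB x hx)
    simpa [Measure.real, volume_cube] using h2
  rw [fr_iter hf 0 s] at h1
  have h3 : (ke m) 0 = (m : ℤ) := by simp [ke]
  rw [h3, norm_mul, norm_pow] at h1
  refine le_trans ?_ h1
  apply mul_le_mul_of_nonneg_right _ (norm_nonneg _)
  apply pow_le_pow_left₀ (by positivity)
  rw [norm_mul, norm_mul, norm_mul, Complex.norm_I, mul_one, Complex.norm_real,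
    Real.norm_eq_abs, abs_of_pos Real.pi_pos, Complex.norm_ofNat, Complex.norm_intCast]
  push_cast
  rw [Nat.abs_cast]
  have := Real.pi_gt_three
  have h0 : (0 : ℝ) ≤ m := Nat.cast_nonneg m
  nlinarith

end Pool.Agent.N977.K
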